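import Pool.Agent.H.MP_f42450_an.C

namespace Pool.Agent.Results.MP_f42450_an.Main

open Set Metric MeasureTheory Filter Topology
open scoped ENNReal NNReal RealInnerProductSpace ContDiff

/-- Hardy-Morrey constant: infimum over nonzero continuous `u` vanishing off `Ω`, with weak
gradient `G` in `L^p`, of `∫ |G|^p / (sup |u| / d^(1 - m/p))^p`. -/
noncomputable def lam {m : ℕ} (p : ℝ) (Ω : Set (EuclideanSpace ℝ (Fin m))) : ℝ≥0∞ :=
  ⨅ (u : EuclideanSpace ℝ (Fin m) → ℝ) (G : EuclideanSpace ℝ (Fin m) → EuclideanSpace ℝ (Fin m))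
    (_ : Continuous u) (_ : MemLp G (ENNReal.ofReal p) volume)
    (_ : ∀ φ : EuclideanSpace ℝ (Fin m) → ℝ, ContDiff ℝ ∞ φ → HasCompactSupport φ →
      ∀ z, ∫ x, u x * fderiv ℝ φ x z = -∫ x, ⟪G x, z⟫ * φ x)
    (_ : ∀ x, x ∉ Ω → u x = 0) (_ : u ≠ 0),
    (∫⁻ x, ‖G x‖ₑ ^ p) /
      (⨆ x ∈ Ω, ENNReal.ofReal (|u x| / infDist x Ωᶜ ^ (1 - (m : ℝ) / p))) ^ p

theorem result (n : ℕ) (p : ℝ) (hp : ((n + 1 : ℕ) : ℝ) < p)
    (Ω : Set (EuclideanSpace ℝ (Fin (n + 1)))) (hΩ : IsOpen Ω) (hb : Bornology.IsBounded Ω)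
    (hf : Nonempty (frontier Ω ≃ₜ sphere (0 : EuclideanSpace ℝ (Fin (n + 1))) 1)) :
    lam p {x : EuclideanSpace ℝ (Fin (n + 1)) | ‖x‖ * Real.cos Real.pi < x (Fin.last n)} ≤
      lam p Ω := by
  have hp1 : 1 < p := lt_of_le_of_lt (by exact_mod_cast n.succ_pos) hp
  have hp0 : 0 < p := by linarith
  obtain ⟨C, hC⟩ : ∃ C, C = {x : EuclideanSpace ℝ (Fin (n + 1)) |
    ‖x‖ * Real.cos Real.pi < x (Fin.last n)} := ⟨_, rfl⟩
  rw [← hC]
  obtain ⟨e, he⟩ : ∃ e : EuclideanSpace ℝ (Fin (n + 1)), e = EuclideanSpace.single (Fin.last n) 1 :=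
    ⟨_, rfl⟩
  have he1 : ‖e‖ = 1 := by simp [he]
  have hCo : IsOpen C := hC ▸ isOpen_lt (by fun_prop) (by fun_prop)
  have hCc : ∀ x, x ∉ C → x = -(‖x‖ • e) := by
    intro x hx
    simp only [hC, mem_ofPred_eq, Real.cos_pi, not_lt] at hx
    have h1 : ‖x + ‖x‖ • e‖ ^ 2 ≤ 0 := by
      rw [norm_add_sq_real, norm_smul, he1, inner_smul_right, norm_norm, he,
        EuclideanSpace.inner_single_right]
      simp only [one_mul, conj_trivial]
      nlinarith [norm_nonneg x]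
    exact eq_neg_of_add_eq_zero_left (norm_eq_zero.1 (pow_eq_zero_iff two_ne_zero |>.1
      (le_antisymm h1 (sq_nonneg _))))
  have h0C : (0 : EuclideanSpace ℝ (Fin (n + 1))) ∈ Cᶜ := by simp [hC]
  have hα : 0 ≤ 1 - ((n + 1 : ℕ) : ℝ) / p := sub_nonneg.2 ((div_le_one hp0).2 hp.le)
  have hne : Ωᶜ.Nonempty := nonempty_compl.2 fun h => NormedSpace.unbounded_univ ℝ _ (h ▸ hb)
  have hd : ∀ x ∈ Ω, 0 < infDist x Ωᶜ := fun x hx =>
    (hΩ.isClosed_compl.notMem_iff_infDist_pos hne).1 (not_not.2 hx)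
  have hq0 : ENNReal.ofReal p ≠ 0 := by simpa using hp0
  refine le_iInf fun u => le_iInf fun G => le_iInf fun hu => le_iInf fun hG => le_iInf fun hW =>
    le_iInf fun hz => le_iInf fun hu0 => ?_
  obtain ⟨A, hA⟩ : ∃ A, A = ∫⁻ x, ‖G x‖ₑ ^ p := ⟨_, rfl⟩
  have hAt : A ≠ ⊤ := by
    have := (eLpNorm_lt_top_iff_lintegral_rpow_enorm_lt_top hq0 ENNReal.ofReal_ne_top).1 hG.2
    rw [ENNReal.toReal_ofReal hp0.le] at this
    exact hA ▸ this.ne
  rw [← hA]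
  by_cases hl : lam p C = 0
  · simp [hl]
  have hs : HasCompactSupport u := HasCompactSupport.intro hb.isCompact_closure fun x hx =>
    hz x fun h => hx (subset_closure h)
  have key : ∀ x ∈ Ω, ENNReal.ofReal (|u x| / infDist x Ωᶜ ^ (1 - ((n + 1 : ℕ) : ℝ) / p)) ≤
      (A / lam p C) ^ p⁻¹ := by
    intro x hx
    obtain ⟨d, hdd⟩ : ∃ d, d = infDist x Ωᶜ := ⟨_, rfl⟩
    have hd0 : 0 < d := hdd ▸ hd x hx
    rw [← hdd]
    by_cases hux : u x = 0
    · simp [hux]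
    have ht : Tendsto (fun ε : ℝ => ENNReal.ofReal ((|u x| - ε) / d ^ (1 - ((n + 1 : ℕ) : ℝ) / p)))
        (𝓝[>] 0) (𝓝 (ENNReal.ofReal ((|u x| - 0) / d ^ (1 - ((n + 1 : ℕ) : ℝ) / p)))) :=
      ((ENNReal.continuous_ofReal.comp (by fun_prop)).tendsto 0).mono_left nhdsWithin_le_nhds
    rw [sub_zero] at ht
    refine le_of_tendsto ht ?_
    filter_upwards [Ioo_mem_nhdsGT (abs_pos.2 hux)] with ε hε
    obtain ⟨K, w, hK, hw0, hw1, hw2⟩ := Pool.Agent.H.MP_f42450_an.main hp1 he1 hu hs hG.1 hW x hd0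
      (fun r hr => by
        obtain ⟨z, h1, h2⟩ := Pool.Agent.H.MP_f42450_an.geom hΩ hb hf hx hne (hdd ▸ hr)
        exact ⟨z, h1, hz _ h2⟩) hε.1
    rw [← hA] at hw2
    have hde : d • e ∈ C := by
      by_contra h
      have := hw0 _ (norm_nonneg (d • e))
      rw [← hCc _ h] at this
      linarith [hε.2]
    have h1 : lam p C ≤ _ := iInf_le_of_le w (iInf_le_of_le (gradient w) (iInf_le_of_le hK.continuous
      (iInf_le_of_le ⟨(Pool.Agent.H.MP_f42450_an.grad_meas w).aestronglyMeasurable,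
        (eLpNorm_lt_top_iff_lintegral_rpow_enorm_lt_top hq0 ENNReal.ofReal_ne_top).2 (by
          rw [ENNReal.toReal_ofReal hp0.le]; exact hw2.trans_lt hAt.lt_top)⟩
      (iInf_le_of_le (Pool.Agent.H.MP_f42450_an.fin_wg hK) (iInf_le_of_le
        (fun y hy => by rw [hCc y hy]; exact hw0 _ (norm_nonneg y))
        (iInf_le _ (fun h => by
          rw [h, Pi.zero_apply] at hw1
          linarith [hε.2])))))))
    have h2 := (ENNReal.mul_le_of_le_div h1).trans hw2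
    rw [ENNReal.le_rpow_inv_iff hp0, ENNReal.le_div_iff_mul_le (Or.inl hl) (Or.inr hAt), mul_comm]
    refine le_trans (mul_le_mul_right (ENNReal.rpow_le_rpow
      (le_iSup₂_of_le (d • e) hde (ENNReal.ofReal_le_ofReal ?_)) hp0.le) _) h2
    have h3 : 0 < infDist (d • e) Cᶜ :=
      (hCo.isClosed_compl.notMem_iff_infDist_pos ⟨0, h0C⟩).1 (not_not.2 hde)
    have h4 : infDist (d • e) Cᶜ ≤ d := by
      simpa [norm_smul, he1, abs_of_pos hd0] using infDist_le_dist_of_mem (x := d • e) h0C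
    exact div_le_div₀ (abs_nonneg _) (hw1.trans (le_abs_self _)) (by positivity)
      (Real.rpow_le_rpow h3.le h4 hα)
  have h1 := iSup₂_le key
  rw [ENNReal.le_rpow_inv_iff hp0, ENNReal.le_div_iff_mul_le (Or.inl hl) (Or.inr hAt),
    mul_comm] at h1
  refine (ENNReal.le_div_iff_mul_le (Or.inl ?_) (Or.inr hAt)).2 h1
  obtain ⟨x, hx⟩ := Function.ne_iff.1 hu0
  have hxΩ : x ∈ Ω := by_contra fun h => hx (hz x h)
  have h2 : 0 < |u x| / infDist x Ωᶜ ^ (1 - ((n + 1 : ℕ) : ℝ) / p) :=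
    div_pos (abs_pos.2 hx) (Real.rpow_pos_of_pos (hd x hxΩ) _)
  exact (ENNReal.rpow_pos_of_nonneg ((ENNReal.ofReal_pos.2 h2).trans_le
    (le_iSup₂_of_le x hxΩ le_rfl)) hp0.le).ne'

end Pool.Agent.Results.MP_f42450_an.Main
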